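import Pool.Agent.Q179.RZ.Pos

/-!
# A locally compact space with a denumerable remainder but without the remainder `ℕ(∞)`

The model is a symmetric submodel of a generic extension. The notion of forcing adds an infinite
sequence of mutually generic ultrafilters `G j` on the countable Boolean algebra `𝓑` of the
periodic sets of natural numbers (with the periods `2 ^ n`) and, for every natural number `x`, an
infinite set `a x` of mutually generic real numbers. The group consists of the permutations of the
natural numbers that map every member of `𝓑` to a set that differs from a member of `𝓑` by a finite
set; it acts on the algebra (hence on the values of the ultrafilters) and permutes the real numbers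
of the sets `a x`. The space is the discrete space of all `a x`. It has a Hausdorff
compactification whose remainder is the set of the natural numbers with the topology that has
the base of the sets `{j | b ∈ G j}`, for `b ∈ 𝓑`; this is a compact Hausdorff space without
isolated points. A compactification with the remainder `ℕ(∞)` would give a sequence of pairwise
almost disjoint infinite sets of points, up to finite sets, and there is no such sequence.
-/

set_option autoImplicit false

namespace Pool.Agent.Results.MP_5ed4ef_gt.LocallyCompactRemainder

open Pool.Agent.W868 Pool.Agent.Q211.SY Pool.Agent.Q211.FS Pool.Agent.Q211.AM Pool.Agent.Q211.TP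
open Pool.Agent.Q179.RZ

/-- There is a countable transitive model of ZF with a locally compact Hausdorff space that has a
Hausdorff compactification with a denumerable remainder, but no Hausdorff compactification whose
remainder is homeomorphic to the convergent sequence `ω + 1`. -/
theorem result : ∃ M : Set ZFSet.{0}, M.Countable ∧ IsZF M ∧
    ∃ X ∈ M, ∃ ξ ∈ M, IsTopIn M X ξ ∧ HausIn X ξ ∧ LocCompactIn M X ξ ∧ DenRem M X ξ ∧
      ¬ ∃ K ∈ M, ∃ κ ∈ M, IsOm1 M K κ ∧ IsRem M X ξ K κ := by
  obtain ⟨M, at', st, bs, bz, h⟩ := exists_pzm
  have hA := h.stM _ univ_DZ
  exact ⟨M, h.cnt, h.zf, st Set.univ, hA, PM M (st Set.univ), PM_mem h.zf hA,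
    disc_top h.zf hA, disc_haus h.zf hA, disc_loc h.zf hA, h.denRem, h.no_om1⟩

end Pool.Agent.Results.MP_5ed4ef_gt.LocallyCompactRemainder
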